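import Mathlib
import Pool.Agent.Helper88.Weyl.Eig

/-!
Minimizers of the `k`-th Dirichlet eigenvalue among quasi-open sets of bounded perimeter converge,
up to translations, to the ball, in every dimension `N ≥ 2`.
-/

open MeasureTheory Set Metric Filter Topology
open scoped ContDiff ENNReal NNReal

noncomputable section

namespace Pool.Agent.Results.MP_280d1a_an.PerimeterBall

/-- `ℝ^N` with its Euclidean norm. -/
abbrev E (N : ℕ) := EuclideanSpace ℝ (Fin N)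

/-- The ball of radius `R` centred at the origin. -/
def centredBall (N : ℕ) (R : ℝ) : Set (E N) := ball 0 R

/-- The partial derivative `∂_i T_i (x)` of the `i`-th component of a vector field. -/
def partialDeriv {N : ℕ} (T : E N → E N) (i : Fin N) (x : E N) : ℝ :=
  fderiv ℝ T x (EuclideanSpace.single i 1) i

/-- The divergence `∑ i, ∂_i T_i` of a vector field. -/
def divergence {N : ℕ} (T : E N → E N) (x : E N) : ℝ := ∑ i : Fin N, partialDeriv T i x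

/-- The vector fields in the definition of the perimeter: `C¹`, compactly supported, `|T| ≤ 1`. -/
structure IsTestField {N : ℕ} (T : E N → E N) : Prop where
  contDiff : ContDiff ℝ 1 T
  compactSupport : HasCompactSupport T
  le_one : ∀ x, ‖T x‖ ≤ 1

/-- The De Giorgi perimeter of `A`: the supremum of `∫_A div T` over the compactly supported `C¹`
vector fields `T` with `|T| ≤ 1`. -/
def perimeter {N : ℕ} (A : Set (E N)) : ℝ≥0∞ :=
  ⨆ (T : E N → E N) (_ : IsTestField T), ENNReal.ofReal (∫ x in A, divergence T x)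

/-- `φ ∈ C_c^∞(ℝ^N)`. -/
structure IsTestFunction {N : ℕ} (φ : E N → ℝ) : Prop where
  contDiff : ContDiff ℝ ∞ φ
  compactSupport : HasCompactSupport φ

/-- `f ∈ L²(ℝ^N)`. -/
def IsL2 {N : ℕ} (f : E N → ℝ) : Prop := MemLp f 2 volume

/-- `F ∈ L²(ℝ^N; ℝ^N)`. -/
def IsL2Field {N : ℕ} (F : E N → E N) : Prop := MemLp F 2 volume

/-- `f_j → f` in `L²(ℝ^N)`, i.e. `∫ |f - f_j|² → 0`. -/
def TendstoL2 {N : ℕ} (f' : ℕ → E N → ℝ) (f : E N → ℝ) : Prop :=
  Tendsto (fun j => ∫ x, (f x - f' j x) ^ 2) atTop (𝓝 0)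

/-- `F_j → F` in `L²(ℝ^N; ℝ^N)`, i.e. `∫ |F - F_j|² → 0`. -/
def TendstoL2Field {N : ℕ} (F' : ℕ → E N → E N) (F : E N → E N) : Prop :=
  Tendsto (fun j => ∫ x, ‖F x - F' j x‖ ^ 2) atTop (𝓝 0)

/-- `u ∈ H¹(ℝ^N)` with weak gradient `G`: `u, G ∈ L²` and there are `φ_j ∈ C_c^∞(ℝ^N)` with
`φ_j → u` and `∇φ_j → G` in `L²`. -/
structure IsSobolev {N : ℕ} (u : E N → ℝ) (G : E N → E N) : Prop where
  memLp : IsL2 u
  memLp_grad : IsL2Field G
  approx : ∃ φ : ℕ → E N → ℝ, (∀ j, IsTestFunction (φ j)) ∧ TendstoL2 φ u ∧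
    TendstoL2Field (fun j => gradient (φ j)) G

/-- `u ≥ 1` almost everywhere on an open set containing `A`. -/
def IsOneNear {N : ℕ} (A : Set (E N)) (u : E N → ℝ) : Prop :=
  ∃ U : Set (E N), IsOpen U ∧ A ⊆ U ∧ ∀ᵐ x, x ∈ U → 1 ≤ u x

/-- The Sobolev capacity of `A`: the infimum of `∫ (u² + |∇u|²)` over the `u ∈ H¹(ℝ^N)` with
`u ≥ 1` almost everywhere on an open set containing `A`. -/
def capacity {N : ℕ} (A : Set (E N)) : ℝ≥0∞ :=
  ⨅ (u : E N → ℝ) (G : E N → E N) (_ : IsSobolev u G) (_ : IsOneNear A u),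
    ENNReal.ofReal (∫ x, (u x ^ 2 + ‖G x‖ ^ 2))

/-- `Ω` is quasi-open: for every `ε > 0` there is an open set `O` of capacity less than `ε` such
that `Ω ∪ O` is open. -/
def IsQuasiOpen {N : ℕ} (Ω : Set (E N)) : Prop :=
  ∀ ε : ℝ≥0∞, 0 < ε → ∃ O : Set (E N), IsOpen O ∧ capacity O < ε ∧ IsOpen (Ω ∪ O)

/-- `v` is quasi-continuous: for every `ε > 0` there is an open set `O` of capacity less than `ε`
such that `v` is continuous on the complement of `O`. -/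
def IsQuasiContinuous {N : ℕ} (v : E N → ℝ) : Prop :=
  ∀ ε : ℝ≥0∞, 0 < ε → ∃ O : Set (E N), IsOpen O ∧ capacity O < ε ∧ ContinuousOn v Oᶜ

/-- `u ∈ H¹₀(Ω)` with weak gradient `G`: `u ∈ H¹(ℝ^N)`, and its quasi-continuous representative
`v` vanishes quasi-everywhere (outside a set of capacity zero) on the complement of `Ω`. -/
def MemH10 {N : ℕ} (Ω : Set (E N)) (u : E N → ℝ) (G : E N → E N) : Prop :=
  IsSobolev u G ∧ ∃ v : E N → ℝ, v =ᵐ[volume] u ∧ IsQuasiContinuous v ∧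
    capacity {x | x ∉ Ω ∧ v x ≠ 0} = 0

/-- `u ∈ H¹₀(Ω)` and `∫ |∇u|² ≤ r ∫ u²`. -/
def RayleighLE {N : ℕ} (Ω : Set (E N)) (r : ℝ≥0) (u : E N → ℝ) : Prop :=
  ∃ G : E N → E N, MemH10 Ω u G ∧ ∫ x, ‖G x‖ ^ 2 ≤ r * ∫ x, u x ^ 2

/-- The functions in `V` are determined by their almost everywhere classes: only the zero function
of `V` is zero almost everywhere. -/
def AEInjective {N : ℕ} (V : Submodule ℝ (E N → ℝ)) : Prop :=
  ∀ u ∈ V, u =ᵐ[volume] 0 → u = 0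

/-- `H¹₀(Ω)` has a `k`-dimensional subspace `V` with `∫ |∇u|² ≤ r ∫ u²` for all `u ∈ V`. -/
def HasTestSpace {N : ℕ} (k : ℕ) (Ω : Set (E N)) (r : ℝ≥0) : Prop :=
  ∃ V : Submodule ℝ (E N → ℝ), Module.finrank ℝ V = k ∧ AEInjective V ∧
    ∀ u ∈ V, RayleighLE Ω r u

/-- The `k`-th Dirichlet eigenvalue `λ_k(Ω)` by the min-max principle: the infimum of the numbers
`r ≥ 0` for which `H¹₀(Ω)` has a `k`-dimensional subspace `V` with `∫ |∇u|² ≤ r ∫ u²` for all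
`u ∈ V`. -/
def dirichletEigenvalue {N : ℕ} (k : ℕ) (Ω : Set (E N)) : ℝ≥0∞ :=
  ⨅ (r : ℝ≥0) (_ : HasTestSpace k Ω r), (r : ℝ≥0∞)

/-- The admissible sets of the problem `(A_k)`: quasi-open sets of finite Lebesgue measure with
`P(Ω) ≤ P₀`. -/
structure IsAdmissible {N : ℕ} (P₀ : ℝ) (Ω : Set (E N)) : Prop where
  quasiOpen : IsQuasiOpen Ω
  finite : volume Ω < ⊤
  perimeter_le : perimeter Ω ≤ ENNReal.ofReal P₀

/-- `Ω` is a minimizer of the problem `(A_k)`: `min {λ_k(Ω) : P(Ω) ≤ P₀}`. -/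
def IsMinimizer {N : ℕ} (k : ℕ) (P₀ : ℝ) (Ω : Set (E N)) : Prop :=
  IsAdmissible P₀ Ω ∧ ∀ Ω' : Set (E N), IsAdmissible P₀ Ω' →
    dirichletEigenvalue k Ω ≤ dirichletEigenvalue k Ω'

/-- `inf_x |(x + A) ∆ B|`, the distance of `A` and `B` up to translations. -/
def translationDist {N : ℕ} (A B : Set (E N)) : ℝ≥0∞ :=
  ⨅ x : E N, volume (symmDiff ((fun y => x + y) '' A) B)

section bridge

variable {N : ℕ}

lemma per_eq (A : Set (E N)) : perimeter A = Helper88.Weyl.perimeter A := by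
  unfold perimeter Helper88.Weyl.perimeter
  refine iSup_congr fun T => le_antisymm ?_ ?_
  · refine iSup_le fun h => ?_
    exact le_iSup_of_le h.contDiff (le_iSup_of_le h.compactSupport (le_iSup_of_le h.le_one le_rfl))
  · refine iSup_le fun h1 => iSup_le fun h2 => iSup_le fun h3 => ?_
    exact le_iSup_of_le ⟨h1, h2, h3⟩ le_rfl

lemma sob_iff (u : E N → ℝ) (G : E N → E N) : IsSobolev u G ↔ Helper88.Weyl.IsH1 u G := by
  constructor
  · intro h
    obtain ⟨φ, h1, h2, h3⟩ := h.approx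
    exact ⟨h.memLp, h.memLp_grad, φ, fun j => ⟨(h1 j).contDiff, (h1 j).compactSupport⟩, h2, h3⟩
  · intro h
    obtain ⟨φ, h1, h2, h3⟩ := h.approx
    exact ⟨h.memu, h.memG, φ, fun j => ⟨(h1 j).1, (h1 j).2⟩, h2, h3⟩

lemma cap_eq (A : Set (E N)) : capacity A = Helper88.Weyl.cap A := by
  unfold capacity Helper88.Weyl.cap IsOneNear
  simp_rw [sob_iff]

lemma qo_iff (Ω : Set (E N)) : IsQuasiOpen Ω ↔ Helper88.Weyl.QuasiOpen Ω := by
  unfold IsQuasiOpen Helper88.Weyl.QuasiOpen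
  simp_rw [cap_eq]

lemma qc_iff (v : E N → ℝ) : IsQuasiContinuous v ↔ Helper88.Weyl.QuasiCont v := by
  unfold IsQuasiContinuous Helper88.Weyl.QuasiCont
  simp_rw [cap_eq]

lemma h10_iff (Ω : Set (E N)) (u : E N → ℝ) (G : E N → E N) :
    MemH10 Ω u G ↔ Helper88.Weyl.MemH10 Ω u G := by
  unfold MemH10 Helper88.Weyl.MemH10
  simp_rw [sob_iff, qc_iff, cap_eq]

lemma ts_iff (k : ℕ) (Ω : Set (E N)) (r : ℝ≥0) :
    HasTestSpace k Ω r ↔ Helper88.Weyl.FunSpace k Ω r := by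
  unfold HasTestSpace AEInjective RayleighLE Helper88.Weyl.FunSpace
  simp_rw [h10_iff]

lemma eig_eq (k : ℕ) (Ω : Set (E N)) :
    dirichletEigenvalue k Ω = Helper88.Weyl.eigenvalue k Ω := by
  rw [Helper88.Weyl.eigenvalue_eq]
  unfold dirichletEigenvalue
  simp_rw [ts_iff]

lemma adm_iff (P₀ : ℝ) (Ω : Set (E N)) : IsAdmissible P₀ Ω ↔ Helper88.Weyl.Admissible P₀ Ω :=
  ⟨fun h => ⟨(qo_iff Ω).mp h.quasiOpen, h.finite, (per_eq Ω).symm.trans_le h.perimeter_le⟩,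
    fun h => ⟨(qo_iff Ω).mpr h.quasiOpen, h.finite, (per_eq Ω).trans_le h.per⟩⟩

lemma min_iff (k : ℕ) (P₀ : ℝ) (Ω : Set (E N)) :
    IsMinimizer k P₀ Ω ↔ Helper88.Weyl.IsMinimizer k P₀ Ω := by
  unfold IsMinimizer Helper88.Weyl.IsMinimizer
  simp_rw [adm_iff, eig_eq]

end bridge

/-- **Main result.** Let `N ≥ 2` and `P₀ > 0`. There is a ball `B_P` centred at `0` with
`P(B_P) = P₀`; and for every choice of minimizers `Ω k` of
`min {λ_k(Ω) : Ω quasi-open, |Ω| < ∞, P(Ω) ≤ P₀}`, `k ≥ 1`,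
one has `inf_x |(x + Ω k) ∆ B_P| → 0` as `k → ∞`. -/
theorem result (N : ℕ) (hN : 2 ≤ N) (P₀ : ℝ) (hP₀ : 0 < P₀) :
    (∃ R : ℝ, 0 < R ∧ perimeter (centredBall N R) = ENNReal.ofReal P₀) ∧
    ∀ R : ℝ, 0 < R → perimeter (centredBall N R) = ENNReal.ofReal P₀ →
      ∀ Ω : ℕ → Set (E N), (∀ k, 1 ≤ k → IsMinimizer k P₀ (Ω k)) →
        Tendsto (fun k => translationDist (Ω k) (centredBall N R)) atTop (𝓝 0) := by
  obtain ⟨n, rfl⟩ : ∃ n, N = n + 1 := ⟨N - 1, by omega⟩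
  have hn : 1 ≤ n := by omega
  simp_rw [per_eq]
  refine ⟨Helper88.Weyl.exists_ball hn hP₀, fun R hR hPR Ω hΩ => ?_⟩
  exact Helper88.Weyl.main_conv hn hP₀ hR hPR fun k hk => (min_iff k P₀ (Ω k)).mp (hΩ k hk)

end Pool.Agent.Results.MP_280d1a_an.PerimeterBall
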